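import Pool.Agent.H59.SG.Loc

/-!
MP_75f39d_co: families generated by sets with at most three shared elements, part two: capacities and payers.
-/

set_option autoImplicit false

namespace H59SG

open Finset

variable {α : Type*} [DecidableEq α] {A G : Finset (Finset α)}

lemma Gen.inter_mem (h : Gen A G) {B T T' : Finset α} (h1 : B \ T ∈ A) (h2 : B \ T' ∈ A) :
    B \ (T ∩ T') ∈ A := by
  rw [← sdiff_union']
  exact h.un _ h1 _ h2

/-- The capacity of a member of `G`. -/
theorem Gen.cap (h : Gen A G) {B f C : Finset α} (hf : f ∈ G) (hfB : f ⊆ B) (hB : B ∈ A)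
    (hCf : C ⊆ sh G f) (hC : C.Nonempty) (hCT : ∀ x ∈ C, ∀ T ⊆ f, x ∈ T → B \ T ∉ A) :
    ((sh G f).card : ℤ) - (if (sh G f).card = 3 ∧ C.card = 1 then 1 else 0) ≤
      s A B f (sh G f) := by
  refine le_trans ?_ (h.lower hfB hB)
  have h3 := h.three f hf
  have h1 : (∑ T ∈ (sh G f).powerset, (if T = sh G f \ C ∧ (sh G f).card = 3 ∧ C.card = 1 then
      (-1 : ℤ) else 0)) ≤ ∑ T ∈ (sh G f).powerset, Fn A G B f T := by
    refine sum_le_sum (fun T hT => ?_)
    rw [mem_powerset] at hT
    unfold Fn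
    by_cases hP : T.Nonempty ∧ B \ (T ∪ (f \ sh G f)) ∈ A
    · rw [if_pos hP]
      have hTC : T ⊆ sh G f \ C := by
        intro x hx
        rw [mem_sdiff]
        refine ⟨hT hx, fun hxC => hCT x hxC _ ?_ (mem_union_left _ hx) hP.2⟩
        exact union_subset (hT.trans (sh_sub G f)) sdiff_subset
      have h4 : (sh G f \ C).card + C.card = (sh G f).card := card_sdiff_add_card_eq_card hCf
      have h5 := card_le_card hTC
      have h6 := hC.card_pos
      have h7 := hP.1.card_pos
      by_cases hcase : 2 * T.card ≤ (sh G f).card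
      · have h8 : (0 : ℤ) ≤ ((sh G f).card : ℤ) - 2 * (T.card : ℤ) := by
          have : ((2 * T.card : ℕ) : ℤ) ≤ ((sh G f).card : ℕ) := by exact_mod_cast hcase
          push_cast at this
          linarith
        refine le_trans ?_ h8
        split_ifs
        · norm_num
        · exact le_rfl
      · have h9 : (sh G f).card = 3 ∧ C.card = 1 ∧ T.card = 2 := by omega
        have h10 : T = sh G f \ C := eq_of_subset_of_card_le hTC (by omega)
        rw [if_pos ⟨h10, h9.1, h9.2.1⟩, h9.1, h9.2.2]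
        norm_num
    · rw [if_neg hP]
      split_ifs
      · norm_num
      · exact le_rfl
  have h2 : -(if (sh G f).card = 3 ∧ C.card = 1 then (1 : ℤ) else 0) ≤
      ∑ T ∈ (sh G f).powerset, (if T = sh G f \ C ∧ (sh G f).card = 3 ∧ C.card = 1 then
      (-1 : ℤ) else 0) := by
    by_cases hh : (sh G f).card = 3 ∧ C.card = 1
    · rw [if_pos hh]
      have h4 : ∀ T : Finset α, (T = sh G f \ C ∧ (sh G f).card = 3 ∧ C.card = 1) ↔
          T = sh G f \ C := fun T => ⟨fun h => h.1, fun h => ⟨h, hh⟩⟩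
      simp only [h4]
      rw [sum_ite_eq']
      split_ifs
      · norm_num
      · norm_num
    · rw [if_neg hh]
      rw [sum_eq_zero]
      · norm_num
      · intro T _
        rw [if_neg]
        exact fun h => hh h.2
  linarith

theorem Gen.cap' (h : Gen A G) {B f C : Finset α} (hf : f ∈ G) (hfB : f ⊆ B) (hB : B ∈ A)
    (hCf : C ⊆ sh G f) (hC : C.Nonempty) (hCT : ∀ x ∈ C, ∀ T ⊆ f, x ∈ T → B \ T ∉ A) :
    (C.card : ℤ) ≤ s A B f (sh G f) := by
  refine le_trans ?_ (h.cap hf hfB hB hCf hC hCT)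
  have h1 := card_le_card hCf
  split_ifs with h2
  · rw [h2.1, h2.2]
    norm_num
  · have : ((C.card : ℕ) : ℤ) ≤ ((sh G f).card : ℕ) := by exact_mod_cast h1
    linarith

/-- `x` pays for the member `e` of `G` at `B`. -/
structure Pay (A G : Finset (Finset α)) (B e : Finset α) (x : α) : Prop where
  mem : x ∈ sh G e
  card : (sh G e).card = 3
  R : B \ e ∈ A
  ins : insert x (B \ e) ∈ A
  era : B.erase x ∉ A
  third : ∀ v ∈ sh G e, v ≠ x → B.erase v ∈ A → ∀ u ∈ sh G e, u ≠ x → u ≠ v →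
    insert u (B \ e) ∈ A

lemma ins_eq {B e c : Finset α} (heB : e ⊆ B) (hce : c ⊆ e) {x y z : α} (hc : c = {x, y, z})
    (hxy : x ≠ y) (hxz : x ≠ z) : B \ ({y, z} ∪ (e \ c)) = insert x (B \ e) := by
  ext t
  simp only [mem_sdiff, mem_union, mem_insert, mem_singleton, hc]
  have hx : x ∈ e := hce (by rw [hc]; simp)
  have hy : y ∈ e := hce (by rw [hc]; simp)
  have hz : z ∈ e := hce (by rw [hc]; simp)
  constructor
  · rintro ⟨h1, h2⟩
    by_cases h3 : t = x
    · exact Or.inl h3
    · right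
      refine ⟨h1, fun h4 => h2 ?_⟩
      by_cases h5 : t = y ∨ t = z
      · exact Or.inl h5
      · right
        refine ⟨h4, ?_⟩
        rintro (h6 | h6 | h6)
        · exact h3 h6
        · exact h5 (Or.inl h6)
        · exact h5 (Or.inr h6)
  · rintro (h1 | ⟨h1, h2⟩)
    · rw [h1]
      refine ⟨heB hx, ?_⟩
      rintro ((h3 | h3) | h3)
      · exact hxy h3
      · exact hxz h3
      · exact h3.2 (Or.inl rfl)
    · refine ⟨h1, ?_⟩
      rintro ((h3 | h3) | h3)
      · exact h2 (h3 ▸ hy)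
      · exact h2 (h3 ▸ hz)
      · exact h2 h3.1

/-- One of the three cases of the next theorem. -/
lemma pay_of (h : Gen A G) {B e : Finset α} (heB : e ⊆ B) {x y z : α}
    (hc : sh G e = {x, y, z}) (hxy : x ≠ y) (hxz : x ≠ z) (hyz : y ≠ z)
    (hR : B \ e ∈ A) (hx : B \ ({y, z} ∪ (e \ sh G e)) ∈ A) (hnx : B \ ({x} ∪ (e \ sh G e)) ∉ A)
    (h1 : B \ ({y} ∪ (e \ sh G e)) ∈ A → B \ ({x, y} ∪ (e \ sh G e)) ∈ A)
    (h2 : B \ ({z} ∪ (e \ sh G e)) ∈ A → B \ ({x, z} ∪ (e \ sh G e)) ∈ A) : Pay A G B e x := by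
  have hce : sh G e ⊆ e := sh_sub G e
  have hmem : ∀ v, v ∈ sh G e → B.erase v ∈ A → B \ ({v} ∪ (e \ sh G e)) ∈ A := by
    intro v hv hB
    have h3 : ({v} : Finset α) ∈ W A B e := by
      rw [mem_W, singleton_subset_iff, sdiff_singleton_eq_erase]
      exact ⟨hce hv, hB⟩
    have h4 := h.full heB h3 (singleton_nonempty v)
    rw [union_eq_left.2 h4, sdiff_singleton_eq_erase]
    exact hB
  have hix := ins_eq (c := sh G e) heB hce hc hxy hxz
  have hiy := ins_eq (c := sh G e) heB hce (x := y) (y := x) (z := z) (by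
    rw [hc]
    ext t
    simp only [mem_insert, mem_singleton]
    tauto) hxy.symm hyz
  have hiz := ins_eq (c := sh G e) heB hce (x := z) (y := x) (z := y) (by
    rw [hc]
    ext t
    simp only [mem_insert, mem_singleton]
    tauto) hxz.symm hyz.symm
  rw [hix] at hx
  rw [hiz] at h1
  rw [hiy] at h2
  refine ⟨by rw [hc]; simp, by rw [hc]; exact card_eq_three.2 ⟨x, y, z, hxy, hxz, hyz, rfl⟩, hR, hx,
    fun h3 => hnx (hmem x (by rw [hc]; simp) h3), ?_⟩
  intro v hv hvx hBv u hu hux huv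
  have h3 := hmem v hv hBv
  rw [hc, mem_insert, mem_insert, mem_singleton] at hv hu
  rcases hv with rfl | rfl | rfl
  · exact absurd rfl hvx
  · rcases hu with rfl | rfl | rfl
    · exact absurd rfl hux
    · exact absurd rfl huv
    · exact h1 h3
  · rcases hu with rfl | rfl | rfl
    · exact absurd rfl hux
    · exact h2 h3
    · exact absurd rfl huv

end H59SG
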