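import Pool.Agent.H59.SG.Fin
import Pool.Agent.H70.G3M.D

/-!
MP_75f39d_co: every point lies in at most three members of `G` other than its singleton.
-/

set_option autoImplicit false

namespace H59SG

open Finset

variable {α : Type*} [DecidableEq α] {A G : Finset (Finset α)}

/-- The elements which are not free. -/
def nf (A : Finset (Finset α)) (D : Finset α) : Finset α := D.filter (fun t => {t} ∉ A)

/-- The members of `A` without free elements. -/
def red (A H : Finset (Finset α)) : Finset (Finset α) := H.filter (fun D => ∀ t ∈ D, {t} ∉ A)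

lemma mem_nf {D : Finset α} {t : α} : t ∈ nf A D ↔ t ∈ D ∧ {t} ∉ A := by
  rw [nf, mem_filter]

lemma mem_red {H : Finset (Finset α)} {D : Finset α} :
    D ∈ red A H ↔ D ∈ H ∧ ∀ t ∈ D, {t} ∉ A := by
  rw [red, mem_filter]

lemma union_free (hu : ∀ X ∈ A, ∀ Y ∈ A, X ∪ Y ∈ A) {D : Finset α} (hD : D ∈ A) :
    ∀ S : Finset α, (∀ t ∈ S, {t} ∈ A) → D ∪ S ∈ A := by
  intro S
  induction S using Finset.induction_on with
  | empty =>
    intro _
    rwa [union_empty]
  | insert a S _ ih =>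
    intro h2
    have h3 := hu _ (h2 a (mem_insert_self a S)) _ (ih fun t ht => h2 t (mem_insert_of_mem ht))
    have h4 : {a} ∪ (D ∪ S) = D ∪ insert a S := by
      rw [insert_eq, ← union_assoc, ← union_assoc, union_comm {a} D]
    rwa [h4] at h3

lemma nf_red (hfree : ∀ x, {x} ∈ A → ∀ D ∈ A, D.erase x ∈ A) {D : Finset α} (hD : D ∈ A) :
    nf A D ∈ red A A := by
  rw [mem_red]
  exact ⟨nonfree_mem hfree hD, fun t ht => (mem_nf.1 ht).2⟩

lemma card_red (hu : ∀ X ∈ A, ∀ Y ∈ A, X ∪ Y ∈ A)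
    (hfree : ∀ x, {x} ∈ A → ∀ D ∈ A, D.erase x ∈ A) (p : Finset α → Prop) [DecidablePred p]
    (hp : ∀ D ∈ A, p D ↔ p (nf A D)) :
    (A.filter p).card = ((red A A).filter p).card *
      2 ^ ((A.sup id).filter (fun t => {t} ∈ A)).card := by
  obtain ⟨F, hF⟩ : ∃ F, F = (A.sup id).filter (fun t => {t} ∈ A) := ⟨_, rfl⟩
  have hFm : ∀ t, t ∈ F ↔ {t} ∈ A := by
    intro t
    rw [hF, mem_filter, mem_sup]
    exact ⟨fun h => h.2, fun h => ⟨⟨{t}, h, mem_singleton_self t⟩, h⟩⟩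
  rw [← hF, ← card_powerset, ← card_product]
  have hnf : ∀ D' S : Finset α, (∀ t ∈ D', {t} ∉ A) → S ⊆ F → nf A (D' ∪ S) = D' := by
    intro D' S hD' hS
    ext t
    rw [mem_nf, mem_union]
    constructor
    · rintro ⟨h1 | h1, h2⟩
      · exact h1
      · exact absurd ((hFm t).1 (hS h1)) h2
    · intro h1
      exact ⟨Or.inl h1, hD' t h1⟩
  refine card_nbij' (fun D => (nf A D, D ∩ F)) (fun q => q.1 ∪ q.2) ?_ ?_ ?_ ?_
  · intro D hD
    rw [mem_coe, mem_filter] at hD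
    rw [mem_coe, mem_product, mem_filter, mem_powerset]
    exact ⟨⟨nf_red hfree hD.1, (hp D hD.1).1 hD.2⟩, inter_subset_right⟩
  · rintro ⟨D', S⟩ hq
    rw [mem_coe, mem_product, mem_filter, mem_powerset] at hq
    rw [mem_coe, mem_filter]
    have h1 := mem_red.1 hq.1.1
    have h2 := union_free hu h1.1 S fun t ht => (hFm t).1 (hq.2 ht)
    refine ⟨h2, (hp _ h2).2 ?_⟩
    dsimp only
    rw [hnf D' S h1.2 hq.2]
    exact hq.1.2
  · intro D _
    dsimp only
    ext t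
    rw [mem_union, mem_nf, mem_inter, hFm]
    constructor
    · rintro (h | h)
      · exact h.1
      · exact h.1
    · intro h
      by_cases h1 : {t} ∈ A
      · exact Or.inr ⟨h, h1⟩
      · exact Or.inl ⟨h, h1⟩
  · rintro ⟨D', S⟩ hq
    rw [mem_coe, mem_product, mem_filter, mem_powerset] at hq
    have h1 := mem_red.1 hq.1.1
    dsimp only
    rw [hnf D' S h1.2 hq.2]
    congr 1
    ext t
    rw [mem_inter, mem_union]
    constructor
    · rintro ⟨h2 | h2, h3⟩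
      · exact absurd ((hFm t).1 h3) (h1.2 t h2)
      · exact h2
    · intro h2
      exact ⟨Or.inr h2, hq.2 h2⟩

/-- Every point lies in at most three members of `G` different from its singleton. -/
theorem few (A G : Finset (Finset α)) (hne : A.Nonempty)
    (hu : ∀ X ∈ A, ∀ Y ∈ A, X ∪ Y ∈ A)
    (hsep : ∀ x ∈ A.sup id, ∀ y ∈ A.sup id, x ≠ y →
      ∃ S ∈ A, (x ∈ S ∧ y ∉ S) ∨ (y ∈ S ∧ x ∉ S))
    (hpow : A ≠ (A.sup id).powerset) (hsub : G ⊆ A) (hgen : ∀ B ∈ A, ∃ F ⊆ G, F.sup id = B)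
    (hthree : ∀ x ∈ A.sup id, (G.filter (fun B => x ∈ B ∧ B ≠ {x})).card ≤ 3) :
    ∃ x ∈ A.sup id, A.card < 2 * (A.filter (fun S => x ∈ S)).card := by
  by_contra hcon
  push Not at hcon
  have hsup : ∀ D ∈ A, ∀ t ∈ D, t ∈ A.sup id := fun D hD t ht =>
    (le_sup (f := id) hD : D ≤ A.sup id) ht
  have hfree : ∀ x, {x} ∈ A → ∀ D ∈ A, D.erase x ∈ A := fun x hx D hD =>
    free_of hu hx (hcon x (hsup _ hx x (mem_singleton_self x))) hD
  have hs1 : ∀ t, t ∈ (red A A).sup id → t ∈ A.sup id ∧ {t} ∉ A := by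
    intro t ht
    rw [mem_sup] at ht
    obtain ⟨D, hD, htD⟩ := ht
    have h1 := mem_red.1 hD
    exact ⟨hsup D h1.1 t htD, h1.2 t htD⟩
  have hs2 : ∀ D ∈ A, ∀ t ∈ D, {t} ∉ A → t ∈ (red A A).sup id := by
    intro D hD t ht htA
    rw [mem_sup]
    exact ⟨nf A D, nf_red hfree hD, mem_nf.2 ⟨ht, htA⟩⟩
  have hne' : (red A A).Nonempty := by
    obtain ⟨D, hD⟩ := hne
    exact ⟨_, nf_red hfree hD⟩
  have hu' : ∀ X ∈ red A A, ∀ Y ∈ red A A, X ∪ Y ∈ red A A := by
    intro X hX Y hY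
    rw [mem_red] at hX hY ⊢
    refine ⟨hu X hX.1 Y hY.1, fun t ht => ?_⟩
    rcases mem_union.1 ht with h | h
    · exact hX.2 t h
    · exact hY.2 t h
  have hsep' : ∀ x ∈ (red A A).sup id, ∀ y ∈ (red A A).sup id, x ≠ y →
      ∃ S ∈ red A A, (x ∈ S ∧ y ∉ S) ∨ (y ∈ S ∧ x ∉ S) := by
    intro x hx y hy hxy
    obtain ⟨h1, h2⟩ := hs1 x hx
    obtain ⟨h3, h4⟩ := hs1 y hy
    obtain ⟨S, hS, h5⟩ := hsep x h1 y h3 hxy
    refine ⟨nf A S, nf_red hfree hS, ?_⟩
    rcases h5 with h5 | h5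
    · exact Or.inl ⟨mem_nf.2 ⟨h5.1, h2⟩, fun h6 => h5.2 (mem_nf.1 h6).1⟩
    · exact Or.inr ⟨mem_nf.2 ⟨h5.1, h4⟩, fun h6 => h5.2 (mem_nf.1 h6).1⟩
  have hpow' : red A A ≠ ((red A A).sup id).powerset := by
    intro h1
    apply hpow
    refine power_of hu hfree ?_ hne
    intro D hD t ht
    by_contra htA
    have h2 := hs2 D hD t ht htA
    have h3 : {t} ∈ red A A := by
      rw [h1, mem_powerset, singleton_subset_iff]
      exact h2
    exact htA (mem_red.1 h3).1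
  have hsub' : red A G ⊆ red A A := by
    intro D hD
    rw [mem_red] at hD ⊢
    exact ⟨hsub hD.1, hD.2⟩
  have hgen' : ∀ B ∈ red A A, ∃ F ⊆ red A G, F.sup id = B := by
    intro B hB
    rw [mem_red] at hB
    obtain ⟨F, hF, hFB⟩ := hgen B hB.1
    refine ⟨F, ?_, hFB⟩
    intro D hD
    rw [mem_red]
    refine ⟨hF hD, fun t ht => hB.2 t ?_⟩
    rw [← hFB]
    exact (le_sup (f := id) hD : D ≤ F.sup id) ht
  have h3' : ∀ x ∈ (red A A).sup id, ((red A G).filter (fun B => x ∈ B)).card ≤ 3 := by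
    intro x hx
    obtain ⟨h1, h2⟩ := hs1 x hx
    refine le_trans (card_le_card ?_) (hthree x h1)
    intro B hB
    rw [mem_filter, mem_red] at hB
    rw [mem_filter]
    refine ⟨hB.1.1, hB.2, ?_⟩
    rintro rfl
    exact h2 (hsub hB.1.1)
  obtain ⟨x, hx, h⟩ := H70G3.main (red A A) (red A G) hne' hu' hsep' hpow' hsub' hgen'
    (by convert h3')
  obtain ⟨h1, h2⟩ := hs1 x hx
  have h4 := card_red hu hfree (fun _ => True) (fun _ _ => Iff.rfl)
  rw [filter_true_of_mem (fun _ _ => trivial), filter_true_of_mem (fun _ _ => trivial)] at h4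
  have h5 := card_red hu hfree (fun S => x ∈ S) (fun D _ => by
    rw [mem_nf]
    exact ⟨fun h => ⟨h, h2⟩, fun h => h.1⟩)
  have h6 := hcon x h1
  rw [h4, h5] at h6
  have h7 : 0 < 2 ^ ((A.sup id).filter (fun t => {t} ∈ A)).card := by positivity
  have h8 : (red A A).card < 2 * ((red A A).filter (fun S => x ∈ S)).card := by
    convert h
  have h9 := Nat.mul_lt_mul_of_pos_right h8 h7
  have h10 : 2 * (((red A A).filter (fun S => x ∈ S)).card *
      2 ^ ((A.sup id).filter (fun t => {t} ∈ A)).card) =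
      2 * ((red A A).filter (fun S => x ∈ S)).card *
      2 ^ ((A.sup id).filter (fun t => {t} ∈ A)).card := by ring
  rw [h10] at h6
  omega

end H59SG
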