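import Pool.Agent.H59.SG.Str

/-!
MP_75f39d_co: families generated by sets with at most three shared elements, part eight: end of the proof of the strict form.
-/

set_option autoImplicit false

namespace H59SG

open Finset

variable {α : Type*} [DecidableEq α] {A G : Finset (Finset α)}

/-- The conditions under which we derive that the family is a power set. -/
structure Ext (A G : Finset (Finset α)) : Prop extends Gen A G where
  sep : ∀ x ∈ A.sup id, ∀ y ∈ A.sup id, x ≠ y → ∃ S ∈ A, (x ∈ S ∧ y ∉ S) ∨ (y ∈ S ∧ x ∉ S)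
  zero : ∀ B ∈ A, ∑ e ∈ G.filter (fun e => e ⊆ B), s A B e (sh G e) = 0
  half : ∀ e ∈ G, ∀ x ∈ sh G e, 2 * fr A x = A.card
  free : ∀ x, {x} ∈ A → ∀ D ∈ A, D.erase x ∈ A

lemma Ext.shared (h : Ext A G) {e : Finset α} (he : e ∈ G) {x : α} (hx : x ∈ e)
    (hxA : {x} ∉ A) : sh G e = e := h.toGen.all_shared h.sep h.zero h.free he hx hxA

lemma Ext.half' (h : Ext A G) {D : Finset α} (hD : D ∈ A) {x : α} (hx : x ∈ D)
    (hxA : {x} ∉ A) : 2 * fr A x = A.card := by
  obtain ⟨g, hg, hxg, -⟩ := h.gen D hD x hx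
  exact h.half g hg x (by rw [h.shared hg hxg hxA]; exact hxg)

lemma Ext.two (h : Ext A G) {y z : α} (hyz : y ≠ z) (hy : {y} ∉ A) (hz : {z} ∉ A)
    (hM : {y, z} ∈ A) {B : Finset α} (hB : B ∈ A) (hMB : {y, z} ⊆ B) : B \ {y, z} ∈ A :=
  two_of h.un hyz hM (h.half' hM (mem_insert_self y _) hy)
    (h.half' hM (mem_insert_of_mem (mem_singleton_self z)) hz) hB hMB

lemma Ext.no_two' (h : Ext A G) {y z : α} (hyz : y ≠ z) (hy : {y} ∉ A) (hz : {z} ∉ A)
    (hM : {y, z} ∈ A) {D : Finset α} (hD : D ∈ A) (hyD : y ∈ D) (hzD : z ∉ D) : False := by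
  obtain ⟨g, hg, hyg, hgD⟩ := h.gen D hD y hyD
  have hzg : z ∉ g := fun h1 => hzD (hgD h1)
  have hsh := h.shared hg hyg hy
  have h3 : g.card ≤ 3 := by
    rw [← hsh]
    exact h.three g hg
  have h4 : (g ∪ {y, z}) \ {y, z} = g.erase y := by
    ext t
    simp only [mem_sdiff, mem_union, mem_insert, mem_singleton, mem_erase]
    constructor
    · rintro ⟨h5 | h5, h6⟩
      · exact ⟨fun h7 => h6 (Or.inl h7), h5⟩
      · exact absurd h5 h6
    · rintro ⟨h5, h6⟩
      refine ⟨Or.inl h6, ?_⟩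
      rintro (h7 | h7)
      · exact h5 h7
      · exact hzg (h7 ▸ h6)
  have h5 := h.two hyz hy hz hM (h.un _ (h.sub hg) _ hM) subset_union_right
  rw [h4] at h5
  have h6 := nonfree_mem h.free h5
  have h7 := nonfree_mem h.free (h.sub hg)
  obtain ⟨N, hN⟩ : ∃ N, N = (g.erase y).filter (fun t => {t} ∉ A) := ⟨_, rfl⟩
  have hNmem : ∀ t ∈ N, {t} ∉ A := by
    intro t ht
    rw [hN, mem_filter] at ht
    exact ht.2
  have hyN : y ∉ N := by
    intro h8
    rw [hN, mem_filter] at h8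
    exact notMem_erase y g h8.1
  have h8 : g.filter (fun t => {t} ∉ A) = insert y N := by
    ext t
    rw [hN]
    simp only [mem_filter, mem_insert, mem_erase]
    constructor
    · rintro ⟨h9, h10⟩
      by_cases h11 : t = y
      · exact Or.inl h11
      · exact Or.inr ⟨⟨h11, h9⟩, h10⟩
    · rintro (h9 | h9)
      · rw [h9]
        exact ⟨hyg, hy⟩
      · exact ⟨h9.1.2, h9.2⟩
  rw [← hN] at h6
  rw [h8] at h7
  have h9 : N.card ≤ 2 := by
    have h10 : N.card ≤ (g.erase y).card := by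
      rw [hN]
      exact card_filter_le _ _
    rw [card_erase_of_mem hyg] at h10
    omega
  have h10 : N.card = 0 ∨ N.card = 1 ∨ N.card = 2 := by omega
  rcases h10 with h10 | h10 | h10
  · rw [card_eq_zero] at h10
    rw [h10] at h7
    exact hy h7
  · obtain ⟨r, hr⟩ := card_eq_one.1 h10
    rw [hr] at h6
    exact hNmem r (by rw [hr]; exact mem_singleton_self r) h6
  · obtain ⟨r, t, hrt, hr⟩ := card_eq_two.1 h10
    have h11 := h.two hrt (hNmem r (by rw [hr]; simp)) (hNmem t (by rw [hr]; simp))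
      (by rw [← hr]; exact h6) h7 (by rw [← hr]; exact subset_insert _ _)
    rw [← hr] at h11
    have h12 : insert y N \ N = {y} := by
      ext t
      simp only [mem_sdiff, mem_insert, mem_singleton]
      constructor
      · rintro ⟨h13 | h13, h14⟩
        · exact h13
        · exact absurd h13 h14
      · intro h13
        rw [h13]
        exact ⟨Or.inl rfl, hyN⟩
    rw [h12] at h11
    exact hy h11

lemma Ext.no_two (h : Ext A G) {y z : α} (hyz : y ≠ z) (hy : {y} ∉ A) (hz : {z} ∉ A)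
    (hM : {y, z} ∈ A) : False := by
  have hsup : ∀ t ∈ ({y, z} : Finset α), t ∈ A.sup id := fun t ht =>
    (le_sup (f := id) hM : ({y, z} : Finset α) ≤ A.sup id) ht
  obtain ⟨S, hS, h1 | h1⟩ := h.sep y (hsup y (by simp)) z (hsup z (by simp)) hyz
  · exact h.no_two' hyz hy hz hM hS h1.1 h1.2
  · exact h.no_two' hyz.symm hz hy (by rwa [pair_comm]) hS h1.1 h1.2

/-- A member of `A` all of whose elements are not free has at least three elements, or is empty. -/
lemma Ext.card_ge (h : Ext A G) {D : Finset α} (hD : D ∈ A) (hD' : ∀ t ∈ D, {t} ∉ A)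
    (hne : D.Nonempty) : 3 ≤ D.card := by
  by_contra hcon
  have h1 := hne.card_pos
  have h2 : D.card = 1 ∨ D.card = 2 := by omega
  rcases h2 with h2 | h2
  · obtain ⟨r, hr⟩ := card_eq_one.1 h2
    rw [hr] at hD hD'
    exact hD' r (mem_singleton_self r) hD
  · obtain ⟨r, t, hrt, hr⟩ := card_eq_two.1 h2
    rw [hr] at hD hD'
    exact h.no_two hrt (hD' r (by simp)) (hD' t (by simp)) hD

lemma Ext.triple (h : Ext A G) {g : Finset α} (hg : g ∈ G) {x : α} (hx : x ∈ g)
    (hxA : {x} ∉ A) : g.card = 3 ∧ sh G g = g ∧ ∀ t ∈ g, {t} ∉ A := by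
  have h1 := h.shared hg hx hxA
  have h2 : g.card ≤ 3 := by
    rw [← h1]
    exact h.three g hg
  have h3 := nonfree_mem h.free (h.sub hg)
  have h4 := h.card_ge h3 (fun t ht => (mem_filter.1 ht).2) ⟨x, mem_filter.2 ⟨hx, hxA⟩⟩
  have h5 : g.filter (fun t => {t} ∉ A) = g :=
    eq_of_subset_of_card_le (filter_subset _ _) (by omega)
  rw [h5] at h4
  refine ⟨by omega, h1, fun t ht => ?_⟩
  rw [← h5, mem_filter] at ht
  exact ht.2

lemma Ext.all_free (h : Ext A G) {D : Finset α} (hD : D ∈ A) {x : α} (hx : x ∈ D) :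
    {x} ∈ A := by
  by_contra hxA
  obtain ⟨e, he, hxe, -⟩ := h.gen D hD x hx
  obtain ⟨h1, h2, h3⟩ := h.triple he hxe hxA
  have h4 : x ∈ sh G e := by
    rw [h2]
    exact hxe
  obtain ⟨-, f, hf, hfe, hxf⟩ := mem_filter.1 h4
  obtain ⟨h5, h6, h7⟩ := h.triple hf hxf hxA
  obtain ⟨B, hB⟩ : ∃ B, B = e ∪ f := ⟨_, rfl⟩
  have hBA : B ∈ A := by
    rw [hB]
    exact h.un _ (h.sub he) _ (h.sub hf)
  have heB : e ⊆ B := by
    rw [hB]
    exact subset_union_left
  have hBn : ∀ t ∈ B, {t} ∉ A := by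
    intro t ht
    rw [hB, mem_union] at ht
    rcases ht with ht | ht
    · exact h3 t ht
    · exact h7 t ht
  have hBc : B.card ≤ 5 := by
    have h8 : (e ∪ f).card + (e ∩ f).card = e.card + f.card := card_union_add_card_inter e f
    have h9 : 0 < (e ∩ f).card := card_pos.2 ⟨x, mem_inter.2 ⟨hxe, hxf⟩⟩
    rw [hB]
    omega
  have hBc' : 3 < B.card := by
    by_contra h8
    have h9 : e = B := eq_of_subset_of_card_le heB (by omega)
    have h10 : f ⊆ e := by
      rw [h9, hB]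
      exact subset_union_right
    exact hfe (eq_of_subset_of_card_le h10 (by omega))
  have hpos : ∀ g ∈ G, g ⊆ B → g.Nonempty → 0 < s A B g (sh G g) := by
    intro g hg hgB hne
    obtain ⟨t, ht⟩ := hne
    obtain ⟨h8, h9, -⟩ := h.triple hg ht (hBn t (hgB ht))
    refine (h.neg hg hgB hBA).2.2 (by rw [h9, h8]) ?_
    intro h10
    have h11 : (B \ g).card = B.card - g.card := card_sdiff_of_subset hgB
    have h12 := h.card_ge h10 (fun t ht => hBn t (mem_sdiff.1 ht).1)
      (card_pos.1 (by omega))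
    omega
  have hnn : ∀ g ∈ G.filter (fun g => g ⊆ B), 0 ≤ s A B g (sh G g) := by
    intro g hg
    rw [mem_filter] at hg
    rcases g.eq_empty_or_nonempty with h8 | h8
    · by_contra h9
      obtain ⟨y, hy⟩ := (h.neg hg.1 hg.2 hBA).2.1 (by linarith)
      have h10 := sh_sub G g hy.mem
      rw [h8] at h10
      exact notMem_empty y h10
    · exact (hpos g hg.1 hg.2 h8).le
  have h8 := single_le_sum hnn (mem_filter.2 ⟨he, heB⟩)
  rw [h.zero B hBA] at h8
  have h9 := hpos e he heB ⟨x, hxe⟩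
  linarith

lemma power_of (hu : ∀ X ∈ A, ∀ Y ∈ A, X ∪ Y ∈ A)
    (hfree : ∀ x, {x} ∈ A → ∀ D ∈ A, D.erase x ∈ A) (hall : ∀ D ∈ A, ∀ t ∈ D, {t} ∈ A)
    (hne : A.Nonempty) : A = (A.sup id).powerset := by
  have hmem : ∀ t ∈ A.sup id, {t} ∈ A := by
    intro t ht
    rw [mem_sup] at ht
    obtain ⟨D, hD, htD⟩ := ht
    exact hall D hD t htD
  ext S
  rw [mem_powerset]
  constructor
  · intro hS
    exact (le_sup (f := id) hS : S ≤ A.sup id)
  · induction S using Finset.induction_on with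
    | empty =>
      intro _
      obtain ⟨D, hD⟩ := hne
      have h1 := nonfree_mem hfree hD
      have h2 : D.filter (fun t => {t} ∉ A) = ∅ := by
        rw [filter_eq_empty_iff]
        intro t ht h3
        exact h3 (hall D hD t ht)
      rwa [h2] at h1
    | insert a S _ ih =>
      intro h1
      rw [insert_eq]
      exact hu _ (hmem a (h1 (mem_insert_self a S))) _ (ih ((subset_insert a S).trans h1))

lemma Ext.power (h : Ext A G) (hne : A.Nonempty) : A = (A.sup id).powerset :=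
  power_of h.un h.free (fun _ hD _ ht => h.all_free hD ht) hne

/-- Families generated by sets with at most three shared elements. -/
theorem main (A G : Finset (Finset α)) (hne : A.Nonempty)
    (hu : ∀ X ∈ A, ∀ Y ∈ A, X ∪ Y ∈ A)
    (hsep : ∀ x ∈ A.sup id, ∀ y ∈ A.sup id, x ≠ y →
      ∃ S ∈ A, (x ∈ S ∧ y ∉ S) ∨ (y ∈ S ∧ x ∉ S))
    (hpow : A ≠ (A.sup id).powerset) (hsub : G ⊆ A) (hgen : ∀ B ∈ A, ∃ F ⊆ G, F.sup id = B)
    (hthree : ∀ B ∈ G, (B.filter (fun x => ∃ C ∈ G, C ≠ B ∧ x ∈ C)).card ≤ 3) :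
    ∃ x ∈ A.sup id, A.card < 2 * (A.filter (fun S => x ∈ S)).card := by
  by_contra hcon
  push Not at hcon
  have hG : Gen A G := by
    refine ⟨hu, hsub, ?_, hthree⟩
    intro D hD x hx
    obtain ⟨F, hF, hFD⟩ := hgen D hD
    rw [← hFD, mem_sup] at hx
    obtain ⟨g, hg, hxg⟩ := hx
    refine ⟨g, hF hg, hxg, ?_⟩
    rw [← hFD]
    exact (le_sup (f := id) hg : g ≤ F.sup id)
  have hsup : ∀ D ∈ A, ∀ t ∈ D, t ∈ A.sup id := fun D hD t ht =>
    (le_sup (f := id) hD : D ≤ A.sup id) ht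
  have h1 := hG.main fun e he x hx => hcon x (hsup e (hsub he) x (sh_sub G e hx))
  have h2 : ∀ x, {x} ∈ A → ∀ D ∈ A, D.erase x ∈ A := fun x hx D hD =>
    free_of hu hx (hcon x (hsup _ hx x (mem_singleton_self x))) hD
  have hE : Ext A G := ⟨hG, hsep, h1.2, h1.1, h2⟩
  exact hpow (hE.power hne)

end H59SG
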