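import Mathlib

/-!
MP_75f39d_co: a finite check, used in `Neg`.
-/

set_option autoImplicit false

namespace H59SG

theorem num {b1 b2 b3 b4 b5 b6 b7 S : ℤ} (a1 : b1 = 0 ∨ b1 = 1) (a2 : b2 = 0 ∨ b2 = 1)
    (a3 : b3 = 0 ∨ b3 = 1) (a4 : b4 = 0 ∨ b4 = 1) (a5 : b5 = 0 ∨ b5 = 1) (a6 : b6 = 0 ∨ b6 = 1)
    (a7 : b7 = 0 ∨ b7 = 1) (i1 : b4 = 1 → b5 = 1 → b1 = 1) (i2 : b4 = 1 → b6 = 1 → b2 = 1)
    (i3 : b5 = 1 → b6 = 1 → b3 = 1)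
    (hS : 3 + (b1 + b2 + b3 - b4 - b5 - b6 - 3 * b7) ≤ S) :
    -1 ≤ S ∧ (b7 = 0 → 0 < S) ∧ (S < 0 → b7 = 1 ∧
      ((b6 = 1 ∧ b1 = 0 ∧ (b2 = 1 → b4 = 1) ∧ (b3 = 1 → b5 = 1)) ∨
      (b5 = 1 ∧ b2 = 0 ∧ (b1 = 1 → b4 = 1) ∧ (b3 = 1 → b6 = 1)) ∨
      (b4 = 1 ∧ b3 = 0 ∧ (b1 = 1 → b5 = 1) ∧ (b2 = 1 → b6 = 1)))) := by
  rcases a4 with h4 | h4 <;> rcases a5 with h5 | h5 <;> rcases a6 with h6 | h6 <;>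
    subst h4 h5 h6 <;> rcases a7 with h7 | h7 <;> subst h7 <;>
    rcases a1 with h1 | h1 <;> rcases a2 with h2 | h2 <;> rcases a3 with h3 | h3 <;>
    subst h1 h2 h3 <;>
    first
    | (exfalso; have h8 := i1 rfl rfl; omega)
    | (exfalso; have h8 := i2 rfl rfl; omega)
    | (exfalso; have h8 := i3 rfl rfl; omega)
    | omega

end H59SG
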