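import Pool.Agent.H59.SG.Cap
import Pool.Agent.H59.SG.Num

/-!
MP_75f39d_co: families generated by sets with at most three shared elements, part three: the sums of `Fn`.
-/

set_option autoImplicit false

namespace H59SG

open Finset

variable {α : Type*} [DecidableEq α] {A G : Finset (Finset α)}

lemma Fn_empty {B e : Finset α} : Fn A G B e ∅ = 0 := by
  unfold Fn
  rw [if_neg (fun h => Finset.not_nonempty_empty h.1)]

lemma Fn_ge {B e T : Finset α} :
    (if 2 * T.card ≤ (sh G e).card then 0 else (sh G e).card - 2 * T.card : ℤ) ≤ Fn A G B e T := by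
  unfold Fn
  split_ifs with h1 h2 h2
  · have h4 : ((2 * T.card : ℕ) : ℤ) ≤ ((sh G e).card : ℕ) := by exact_mod_cast h1
    push_cast at h4
    linarith
  · exact le_rfl
  · exact le_rfl
  · have h4 : ((sh G e).card : ℤ) < 2 * (T.card : ℤ) := by
      have h5 : (sh G e).card < 2 * T.card := by omega
      exact_mod_cast h5
    linarith

lemma sum_one {B e : Finset α} (hk : (sh G e).card = 1) :
    -1 ≤ ∑ T ∈ (sh G e).powerset, Fn A G B e T := by
  have hk' := hk
  obtain ⟨x, hx⟩ := card_eq_one.1 hk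
  rw [hx, show ({x} : Finset α) = insert x ∅ by simp, sum_powerset_insert (notMem_empty x)]
  simp only [powerset_empty, sum_singleton, Fn_empty, zero_add]
  have h1 := Fn_ge (A := A) (G := G) (B := B) (e := e) (T := insert x ∅)
  have e1 : (insert x (∅ : Finset α)).card = 1 := by simp
  rw [e1, hk] at h1
  norm_num at h1
  exact h1

lemma sum_two {B e : Finset α} (hk : (sh G e).card = 2) :
    -2 ≤ ∑ T ∈ (sh G e).powerset, Fn A G B e T := by
  obtain ⟨x, y, hxy, hx⟩ := card_eq_two.1 hk
  rw [hx, sum_powerset_insert (by simp [hxy]), show ({y} : Finset α) = insert y ∅ by simp,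
    sum_powerset_insert (notMem_empty y), sum_powerset_insert (notMem_empty y)]
  simp only [powerset_empty, sum_singleton, Fn_empty, zero_add]
  have e1 : (insert y (∅ : Finset α)).card = 1 := by simp
  have e2 : (insert x (∅ : Finset α)).card = 1 := by simp
  have e3 : (insert x (insert y (∅ : Finset α))).card = 2 := by simp [hxy]
  have h1 := Fn_ge (A := A) (G := G) (B := B) (e := e) (T := insert y ∅)
  have h2 := Fn_ge (A := A) (G := G) (B := B) (e := e) (T := insert x ∅)
  have h3 := Fn_ge (A := A) (G := G) (B := B) (e := e) (T := insert x (insert y ∅))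
  rw [e1, hk] at h1
  rw [e2, hk] at h2
  rw [e3, hk] at h3
  rw [if_pos (by norm_num)] at h1 h2
  rw [if_neg (by norm_num)] at h3
  push_cast at h3
  linarith

/-- The indicator. -/
def P (A : Finset (Finset α)) (B p T : Finset α) : ℤ := if B \ (T ∪ p) ∈ A then 1 else 0

lemma P01 (B p T : Finset α) : P A B p T = 0 ∨ P A B p T = 1 := by
  unfold P
  split_ifs
  · exact Or.inr rfl
  · exact Or.inl rfl

lemma P1 {B p T : Finset α} : P A B p T = 1 ↔ B \ (T ∪ p) ∈ A := by
  unfold P
  split_ifs with h5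
  · exact ⟨fun _ => h5, fun _ => rfl⟩
  · exact ⟨fun h6 => absurd h6 (by norm_num), fun h6 => absurd h6 h5⟩

lemma P0 {B p T : Finset α} (h : P A B p T = 0) : B \ (T ∪ p) ∉ A := by
  intro h1
  rw [← P1 (A := A)] at h1
  rw [h1] at h
  exact absurd h (by norm_num)

lemma Fn_P {B e T : Finset α} (hT : T.Nonempty) (hk : (sh G e).card = 3) :
    Fn A G B e T = (3 - 2 * (T.card : ℤ)) * P A B (e \ sh G e) T := by
  unfold Fn P
  rw [hk]
  by_cases h5 : B \ (T ∪ (e \ sh G e)) ∈ A
  · rw [if_pos ⟨hT, h5⟩, if_pos h5]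
    push_cast
    ring
  · rw [if_neg (fun h => h5 h.2), if_neg h5]
    ring

lemma Gen.P_inter (h : Gen A G) {B p T T' U : Finset α} (hU : T ∩ T' = U)
    (h5 : P A B p T = 1) (h6 : P A B p T' = 1) : P A B p U = 1 := by
  rw [P1] at h5 h6 ⊢
  have h7 := h.inter_mem h5 h6
  have h8 : (T ∪ p) ∩ (T' ∪ p) = U ∪ p := by
    rw [← hU]
    ext t
    simp only [mem_inter, mem_union]
    tauto
  rwa [h8] at h7

lemma pair_inter {x y z : α} (hyz : y ≠ z) : ({x, y} : Finset α) ∩ {x, z} = {x} := by
  ext t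
  simp only [mem_inter, mem_insert, mem_singleton]
  constructor
  · rintro ⟨h9 | h9, h10 | h10⟩
    · exact h9
    · exact h9
    · exact h10
    · exact absurd (h9.symm.trans h10) hyz
  · intro h9
    exact ⟨Or.inl h9, Or.inl h9⟩

lemma sum_three {B e : Finset α} {x y z : α} (hc : sh G e = {x, y, z}) (hxy : x ≠ y)
    (hxz : x ≠ z) (hyz : y ≠ z) :
    ∑ T ∈ (sh G e).powerset, Fn A G B e T = P A B (e \ sh G e) {x} + P A B (e \ sh G e) {y} +
      P A B (e \ sh G e) {z} - P A B (e \ sh G e) {x, y} - P A B (e \ sh G e) {x, z} -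
      P A B (e \ sh G e) {y, z} - 3 * P A B (e \ sh G e) {x, y, z} := by
  have hk : (sh G e).card = 3 := by
    rw [hc]
    exact card_eq_three.2 ⟨x, y, z, hxy, hxz, hyz, rfl⟩
  have c3 : ({x, y, z} : Finset α).card = 3 := card_eq_three.2 ⟨x, y, z, hxy, hxz, hyz, rfl⟩
  have hx1 : x ∉ ({y, z} : Finset α) := by simp [hxy, hxz]
  have hy1 : y ∉ ({z} : Finset α) := by simp [hyz]
  have hz1 : z ∉ (∅ : Finset α) := notMem_empty z
  have h1 : ∀ f : Finset α → ℤ, ∑ T ∈ ({x, y, z} : Finset α).powerset, f T =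
      f ∅ + f {z} + (f {y} + f {y, z}) + (f {x} + f {x, z} + (f {x, y} + f {x, y, z})) := by
    intro f
    rw [sum_powerset_insert hx1, sum_powerset_insert hy1, sum_powerset_insert hy1,
      ← insert_empty_eq z, sum_powerset_insert hz1, sum_powerset_insert hz1,
      sum_powerset_insert hz1, sum_powerset_insert hz1]
    simp only [powerset_empty, sum_singleton, insert_empty_eq]
  have h2 : ∑ T ∈ (sh G e).powerset, Fn A G B e T =
      ∑ T ∈ ({x, y, z} : Finset α).powerset, Fn A G B e T := by
    rw [hc]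
  rw [h2, h1, Fn_empty, Fn_P (singleton_nonempty x) hk, Fn_P (singleton_nonempty y) hk,
    Fn_P (singleton_nonempty z) hk, Fn_P (T := {y, z}) (insert_nonempty _ _) hk,
    Fn_P (T := {x, z}) (insert_nonempty _ _) hk, Fn_P (T := {x, y}) (insert_nonempty _ _) hk,
    Fn_P (T := {x, y, z}) (insert_nonempty _ _) hk, card_singleton, card_singleton,
    card_singleton, card_pair hyz, card_pair hxz, card_pair hxy, c3]
  push_cast
  ring

end H59SG
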