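import Mathlib

/-!
MP_75f39d_co: families generated by sets with at most three shared elements, part one: the local inequality.

`sh G e`: the elements of `e` which lie in another member of `G`. `W A B e`: the parts `T` of `e` with `B - T` in `A`. `s A B e c`: the local sum over `T` in `W A B e` of
`|c| - 2 |T n c|`. For every `B` in `A` the sum of `s A B e (sh G e)` over the members `e` of `G` inside `B` is nonnegative.
-/

set_option autoImplicit false

namespace H59SG

open Finset

variable {α : Type*} [DecidableEq α]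

/-- The elements of `e` shared with another member of `G`. -/
def sh (G : Finset (Finset α)) (e : Finset α) : Finset α :=
  e.filter (fun x => ∃ g ∈ G, g ≠ e ∧ x ∈ g)

/-- `A` is union-closed, generated by `G`, and the members of `G` have at most three shared elements. -/
structure Gen (A G : Finset (Finset α)) : Prop where
  un : ∀ X ∈ A, ∀ Y ∈ A, X ∪ Y ∈ A
  sub : G ⊆ A
  gen : ∀ D ∈ A, ∀ x ∈ D, ∃ g ∈ G, x ∈ g ∧ g ⊆ D
  three : ∀ e ∈ G, (sh G e).card ≤ 3

/-- The parts of `e` which can be removed from `B`. -/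
def W (A : Finset (Finset α)) (B e : Finset α) : Finset (Finset α) :=
  e.powerset.filter (fun T => B \ T ∈ A)

/-- The local sum. -/
def s (A : Finset (Finset α)) (B e c : Finset α) : ℤ :=
  ∑ T ∈ W A B e, ((c.card : ℤ) - 2 * ((T ∩ c).card : ℤ))

lemma mem_W {A : Finset (Finset α)} {B e T : Finset α} : T ∈ W A B e ↔ T ⊆ e ∧ B \ T ∈ A := by
  rw [W, mem_filter, mem_powerset]

lemma sh_sub (G : Finset (Finset α)) (e : Finset α) : sh G e ⊆ e := filter_subset _ _

lemma sdiff_union' (B T T' : Finset α) : (B \ T) ∪ (B \ T') = B \ (T ∩ T') := by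
  ext x
  simp only [mem_union, mem_sdiff, mem_inter]
  tauto

/-- Double counting: the sum over `A` in terms of the local sums. -/
theorem ident {A : Finset (Finset α)} (hu : ∀ X ∈ A, ∀ Y ∈ A, X ∪ Y ∈ A) {M c : Finset α}
    (hM : M ∈ A) (hc : c ⊆ M) :
    ∑ D ∈ A, (2 * ((D ∩ c).card : ℤ) - c.card) = ∑ B ∈ A.filter (fun B => M ⊆ B), s A B M c := by
  rw [← Finset.sum_fiberwise_of_maps_to (s := A) (t := A.filter (fun B => M ⊆ B))
    (g := fun D => D ∪ M) (fun D hD => mem_filter.2 ⟨hu D hD M hM, subset_union_right⟩)]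
  refine sum_congr rfl (fun B hB => ?_)
  rw [mem_filter] at hB
  have key : ∀ D, D ∪ M = B → B \ (M \ D) = D := by
    intro D hD
    rw [← hD]
    ext x
    simp only [mem_union, mem_sdiff]
    tauto
  have key2 : ∀ T, T ⊆ M → M \ (B \ T) = T := by
    intro T hT
    ext x
    simp only [mem_sdiff]
    constructor
    · rintro ⟨h1, h2⟩
      by_contra h3
      exact h2 ⟨hB.2 h1, h3⟩
    · intro h1
      exact ⟨hT h1, fun h2 => h2.2 h1⟩
  unfold s
  refine sum_bij' (fun D _ => M \ D) (fun T _ => B \ T) ?_ ?_ ?_ ?_ ?_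
  · intro D hD
    rw [mem_filter] at hD
    rw [mem_W, key D hD.2]
    exact ⟨sdiff_subset, hD.1⟩
  · intro T hT
    rw [mem_W] at hT
    rw [mem_filter]
    refine ⟨hT.2, ?_⟩
    ext x
    simp only [mem_union, mem_sdiff]
    constructor
    · rintro (h | h)
      · exact h.1
      · exact hB.2 h
    · intro h
      by_cases h1 : x ∈ T
      · exact Or.inr (hT.1 h1)
      · exact Or.inl ⟨h, h1⟩
  · intro D hD
    rw [mem_filter] at hD
    exact key D hD.2
  · intro T hT
    rw [mem_W] at hT
    exact key2 T hT.1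
  · intro D hD
    have h1 : (D ∩ c).card + ((M \ D) ∩ c).card = c.card := by
      rw [← card_union_of_disjoint]
      · congr 1
        ext x
        simp only [mem_union, mem_inter, mem_sdiff]
        constructor
        · rintro (h | h)
          · exact h.2
          · exact h.2
        · intro h
          by_cases h2 : x ∈ D
          · exact Or.inl ⟨h2, h⟩
          · exact Or.inr ⟨⟨hc h, h2⟩, h⟩
      · rw [disjoint_left]
        intro x hx hx'
        rw [mem_inter] at hx hx'
        exact (mem_sdiff.1 hx'.1).2 hx.1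
    have h2 : ((D ∩ c).card : ℤ) + (((M \ D) ∩ c).card : ℤ) = (c.card : ℤ) := by exact_mod_cast h1
    linarith

variable {A G : Finset (Finset α)}

lemma Gen.priv (h : Gen A G) {e : Finset α} {q : α} (hq : q ∈ e)
    (hq' : q ∉ sh G e) {D : Finset α} (hD : D ∈ A) (hqD : q ∈ D) : e ⊆ D := by
  obtain ⟨g, hg, hqg, hgD⟩ := h.gen D hD q hqD
  by_cases hge : g = e
  · rw [← hge]
    exact hgD
  · exact absurd (mem_filter.2 ⟨hq, g, hg, hge, hqg⟩) hq'

lemma Gen.full (h : Gen A G) {B e T : Finset α} (heB : e ⊆ B) (hT : T ∈ W A B e)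
    (hne : T.Nonempty) : e \ sh G e ⊆ T := by
  intro q hq
  rw [mem_sdiff] at hq
  by_contra hqT
  rw [mem_W] at hT
  have h1 : e ⊆ B \ T := h.priv hq.1 hq.2 hT.2 (mem_sdiff.2 ⟨heB hq.1, hqT⟩)
  obtain ⟨t, ht⟩ := hne
  exact (mem_sdiff.1 (h1 (hT.1 ht))).2 ht

/-- The contribution of the part `T` of the shared elements. -/
def Fn (A G : Finset (Finset α)) (B e T : Finset α) : ℤ :=
  if T.Nonempty ∧ B \ (T ∪ (e \ sh G e)) ∈ A then ((sh G e).card : ℤ) - 2 * (T.card : ℤ) else 0

theorem Gen.lower (h : Gen A G) {B e : Finset α} (heB : e ⊆ B) (hB : B ∈ A) :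
    ((sh G e).card : ℤ) + ∑ T ∈ (sh G e).powerset, Fn A G B e T ≤ s A B e (sh G e) := by
  obtain ⟨c, hc⟩ : ∃ c, c = sh G e := ⟨_, rfl⟩
  have hce : c ⊆ e := by
    rw [hc]
    exact sh_sub G e
  have hfull : ∀ T ∈ W A B e, T.Nonempty → e \ c ⊆ T := by
    intro T hT hne
    rw [hc]
    exact h.full heB hT hne
  unfold Fn s
  rw [← hc]
  rw [← sum_filter_add_sum_filter_not (W A B e) (fun T => T ∩ c = ∅)]
  have h1 : (c.card : ℤ) ≤ ∑ T ∈ (W A B e).filter (fun T => T ∩ c = ∅),
      ((c.card : ℤ) - 2 * ((T ∩ c).card : ℤ)) := by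
    have h2 : ∅ ∈ (W A B e).filter (fun T => T ∩ c = ∅) := by
      rw [mem_filter, mem_W]
      refine ⟨⟨empty_subset _, ?_⟩, empty_inter _⟩
      rw [sdiff_empty]
      exact hB
    refine le_trans ?_ (single_le_sum (f := fun T => (c.card : ℤ) - 2 * ((T ∩ c).card : ℤ)) ?_ h2)
    · simp
    · intro T hT
      rw [mem_filter] at hT
      simp only [hT.2, card_empty]
      simp
  have h3 : ∑ T ∈ c.powerset, (if T.Nonempty ∧ B \ (T ∪ (e \ c)) ∈ A then
      (c.card : ℤ) - 2 * (T.card : ℤ) else 0) =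
      ∑ T ∈ (W A B e).filter (fun T => ¬ T ∩ c = ∅), ((c.card : ℤ) - 2 * ((T ∩ c).card : ℤ)) := by
    rw [← sum_filter]
    have hT1 : ∀ T, T ⊆ c → (T ∪ (e \ c)) ∩ c = T := by
      intro T hT
      ext x
      simp only [mem_inter, mem_union, mem_sdiff]
      constructor
      · rintro ⟨h4 | h4, h5⟩
        · exact h4
        · exact absurd h5 h4.2
      · intro h4
        exact ⟨Or.inl h4, hT h4⟩
    have hT2 : ∀ T ∈ W A B e, T.Nonempty → (T ∩ c) ∪ (e \ c) = T := by
      intro T hT hne
      ext x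
      simp only [mem_inter, mem_union, mem_sdiff]
      constructor
      · rintro (h4 | h4)
        · exact h4.1
        · exact hfull T hT hne (mem_sdiff.2 h4)
      · intro h4
        by_cases h5 : x ∈ c
        · exact Or.inl ⟨h4, h5⟩
        · exact Or.inr ⟨(mem_W.1 hT).1 h4, h5⟩
    refine sum_bij' (fun T _ => T ∪ (e \ c)) (fun T _ => T ∩ c) ?_ ?_ ?_ ?_ ?_
    · intro T hT
      rw [mem_filter, mem_powerset] at hT
      rw [mem_filter, mem_W, hT1 T hT.1]
      refine ⟨⟨union_subset (hT.1.trans hce) sdiff_subset, hT.2.2⟩, ?_⟩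
      exact nonempty_iff_ne_empty.1 hT.2.1
    · intro T hT
      rw [mem_filter] at hT
      have hne : T.Nonempty := by
        rw [nonempty_iff_ne_empty]
        rintro rfl
        exact hT.2 (empty_inter _)
      rw [mem_filter, mem_powerset, hT2 T hT.1 hne]
      exact ⟨inter_subset_right, nonempty_iff_ne_empty.2 hT.2, (mem_W.1 hT.1).2⟩
    · intro T hT
      rw [mem_filter, mem_powerset] at hT
      exact hT1 T hT.1
    · intro T hT
      rw [mem_filter] at hT
      have hne : T.Nonempty := by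
        rw [nonempty_iff_ne_empty]
        rintro rfl
        exact hT.2 (empty_inter _)
      exact hT2 T hT.1 hne
    · intro T hT
      rw [mem_filter, mem_powerset] at hT
      rw [hT1 T hT.1]
  rw [h3]
  exact add_le_add_left h1 _

end H59SG
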