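import Pool.Agent.H59.SG.Uni

/-!
MP_75f39d_co: families generated by sets with at most three shared elements, part six: the averaging inequality and its cases of equality.
-/

set_option autoImplicit false

namespace H59SG

open Finset

variable {α : Type*} [DecidableEq α] {A G : Finset (Finset α)}

/-- The frequency of `x`. -/
def fr (A : Finset (Finset α)) (x : α) : ℕ := (A.filter (fun S => x ∈ S)).card

lemma sum_inter (A : Finset (Finset α)) (c : Finset α) :
    ∑ D ∈ A, (2 * ((D ∩ c).card : ℤ) - c.card) = ∑ x ∈ c, (2 * (fr A x : ℤ) - A.card) := by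
  have h1 : ∀ D : Finset α, ((D ∩ c).card : ℤ) = ∑ x ∈ c, if x ∈ D then (1 : ℤ) else 0 := by
    intro D
    rw [← Nat.cast_one, ← Nat.cast_zero]
    rw [inter_comm, ← filter_mem_eq_inter, card_filter]
    push_cast
    rfl
  have h2 : ∀ x : α, (fr A x : ℤ) = ∑ D ∈ A, if x ∈ D then (1 : ℤ) else 0 := by
    intro x
    unfold fr
    rw [card_filter]
    push_cast
    rfl
  rw [sum_sub_distrib, sum_sub_distrib, ← mul_sum, ← mul_sum, sum_const, sum_const]
  simp only [h1, h2]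
  rw [sum_comm]
  simp only [nsmul_eq_mul]
  ring

theorem Gen.main (h : Gen A G) (hle : ∀ e ∈ G, ∀ x ∈ sh G e, 2 * fr A x ≤ A.card) :
    (∀ e ∈ G, ∀ x ∈ sh G e, 2 * fr A x = A.card) ∧
      ∀ B ∈ A, ∑ e ∈ G.filter (fun e => e ⊆ B), s A B e (sh G e) = 0 := by
  have h1 : ∑ e ∈ G, ∑ x ∈ sh G e, (2 * (fr A x : ℤ) - A.card) =
      ∑ B ∈ A, ∑ e ∈ G.filter (fun e => e ⊆ B), s A B e (sh G e) := by
    have h2 : ∀ e ∈ G, ∑ x ∈ sh G e, (2 * (fr A x : ℤ) - A.card) =
        ∑ B ∈ A, if e ⊆ B then s A B e (sh G e) else 0 := by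
      intro e he
      rw [← sum_inter, ident h.un (h.sub he) (sh_sub G e), sum_filter]
    rw [sum_congr rfl h2, sum_comm]
    refine sum_congr rfl fun B _ => ?_
    rw [sum_filter]
  have h3 : ∀ B ∈ A, 0 ≤ ∑ e ∈ G.filter (fun e => e ⊆ B), s A B e (sh G e) :=
    fun B hB => h.local hB
  have h4 : ∀ e ∈ G, ∀ x ∈ sh G e, (0 : ℤ) ≤ (A.card : ℤ) - 2 * (fr A x : ℤ) := by
    intro e he x hx
    have h5 : ((2 * fr A x : ℕ) : ℤ) ≤ (A.card : ℕ) := by exact_mod_cast hle e he x hx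
    push_cast at h5
    linarith
  have h5 : ∀ e ∈ G, 0 ≤ ∑ x ∈ sh G e, ((A.card : ℤ) - 2 * (fr A x : ℤ)) :=
    fun e he => sum_nonneg (h4 e he)
  have h6 : ∑ e ∈ G, ∑ x ∈ sh G e, ((A.card : ℤ) - 2 * (fr A x : ℤ)) =
      -∑ e ∈ G, ∑ x ∈ sh G e, (2 * (fr A x : ℤ) - A.card) := by
    rw [← sum_neg_distrib]
    refine sum_congr rfl fun e _ => ?_
    rw [← sum_neg_distrib]
    refine sum_congr rfl fun x _ => ?_
    ring
  have h7 : 0 ≤ ∑ e ∈ G, ∑ x ∈ sh G e, ((A.card : ℤ) - 2 * (fr A x : ℤ)) := sum_nonneg h5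
  have h8 : 0 ≤ ∑ B ∈ A, ∑ e ∈ G.filter (fun e => e ⊆ B), s A B e (sh G e) := sum_nonneg h3
  have h9 : ∑ B ∈ A, ∑ e ∈ G.filter (fun e => e ⊆ B), s A B e (sh G e) = 0 := by
    linarith
  have h10 : ∑ e ∈ G, ∑ x ∈ sh G e, ((A.card : ℤ) - 2 * (fr A x : ℤ)) = 0 := by
    linarith
  refine ⟨?_, (sum_eq_zero_iff_of_nonneg h3).1 h9⟩
  intro e he x hx
  have h11 := (sum_eq_zero_iff_of_nonneg h5).1 h10 e he
  have h12 := (sum_eq_zero_iff_of_nonneg (h4 e he)).1 h11 x hx
  have h13 : ((2 * fr A x : ℕ) : ℤ) = (A.card : ℕ) := by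
    push_cast
    linarith
  exact_mod_cast h13

lemma free_of (hu : ∀ X ∈ A, ∀ Y ∈ A, X ∪ Y ∈ A) {x : α} (hx : {x} ∈ A)
    (hle : 2 * fr A x ≤ A.card) {D : Finset α} (hD : D ∈ A) : D.erase x ∈ A := by
  by_cases hxD : x ∈ D
  · have h1 : (A.filter (fun S => x ∈ S)).card + (A.filter (fun S => ¬ x ∈ S)).card = A.card :=
      card_filter_add_card_filter_not (fun S => x ∈ S)
    have h2 : (A.filter (fun S => ¬ x ∈ S)).image (fun S => insert x S) ⊆
        A.filter (fun S => x ∈ S) := by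
      intro S hS
      obtain ⟨S', hS', rfl⟩ := mem_image.1 hS
      rw [mem_filter] at hS' ⊢
      refine ⟨?_, mem_insert_self _ _⟩
      have h3 := hu _ hx _ hS'.1
      rwa [← insert_eq] at h3
    have h3 : ((A.filter (fun S => ¬ x ∈ S)).image (fun S => insert x S)).card =
        (A.filter (fun S => ¬ x ∈ S)).card := by
      refine card_image_of_injOn ?_
      intro S hS S' hS' hSS
      have h4 := (mem_filter.1 hS).2
      have h5 := (mem_filter.1 hS').2
      have h6 := congrArg (fun T => T.erase x) hSS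
      dsimp only at h6
      rwa [erase_insert h4, erase_insert h5] at h6
    unfold fr at hle
    have h4 := eq_of_subset_of_card_le h2 (by omega)
    have h5 : D ∈ A.filter (fun S => x ∈ S) := mem_filter.2 ⟨hD, hxD⟩
    rw [← h4] at h5
    obtain ⟨S, hS, rfl⟩ := mem_image.1 h5
    rw [mem_filter] at hS
    rw [erase_insert hS.2]
    exact hS.1
  · rwa [erase_eq_of_notMem hxD]

lemma two_of (hu : ∀ X ∈ A, ∀ Y ∈ A, X ∪ Y ∈ A) {x y : α} (hxy : x ≠ y)
    (hM : {x, y} ∈ A) (hx : 2 * fr A x = A.card) (hy : 2 * fr A y = A.card) {B : Finset α}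
    (hB : B ∈ A) (hMB : {x, y} ⊆ B) : B \ {x, y} ∈ A := by
  obtain ⟨M, hMd⟩ : ∃ M : Finset α, M = {x, y} := ⟨_, rfl⟩
  have hc : M.card = 2 := by
    rw [hMd, card_pair hxy]
  have h1 := ident hu hM (Subset.refl ({x, y} : Finset α))
  rw [sum_inter, sum_pair hxy] at h1
  have hx' : 2 * (fr A x : ℤ) = A.card := by exact_mod_cast hx
  have hy' : 2 * (fr A y : ℤ) = A.card := by exact_mod_cast hy
  rw [hx', hy', sub_self, add_zero] at h1
  rw [← hMd] at h1 hMB ⊢
  have h2 : ∀ B ∈ A, M ⊆ B → (2 : ℤ) + (if M ∈ W A B M then -2 else 0) ≤ s A B M M := by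
    intro B hB _
    have h3 : ∅ ∈ W A B M := by
      rw [mem_W, sdiff_empty]
      exact ⟨empty_subset _, hB⟩
    unfold s
    rw [← add_sum_erase _ _ h3]
    have h4 : (if M ∈ W A B M then (-2 : ℤ) else 0) =
        ∑ T ∈ (W A B M).erase ∅, if M = T then -2 else 0 := by
      have h5 : M ≠ ∅ := by
        rintro h5
        rw [h5, card_empty] at hc
        omega
      rw [sum_ite_eq]
      by_cases h6 : M ∈ W A B M
      · rw [if_pos h6, if_pos (mem_erase.2 ⟨h5, h6⟩)]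
      · rw [if_neg h6, if_neg (fun h7 => h6 (mem_erase.1 h7).2)]
    rw [h4, empty_inter, card_empty, hc]
    have h5 : ∑ T ∈ (W A B M).erase ∅, (if M = T then (-2 : ℤ) else 0) ≤
        ∑ T ∈ (W A B M).erase ∅, (((2 : ℕ) : ℤ) - 2 * ((T ∩ M).card : ℤ)) := by
      refine sum_le_sum fun T hT => ?_
      rw [mem_erase, mem_W] at hT
      split_ifs with h6
      · rw [← h6, inter_self, hc]
        norm_num
      · have h7 : (T ∩ M).card ≤ 1 := by
          rw [inter_eq_left.2 hT.2.1]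
          by_contra h8
          exact h6 (eq_of_subset_of_card_le hT.2.1 (by omega)).symm
        have h8 : ((T ∩ M).card : ℤ) ≤ 1 := by exact_mod_cast h7
        push_cast
        linarith
    push_cast at h5 ⊢
    linarith
  have h3 : ∀ B ∈ A.filter (fun B => M ⊆ B), 0 ≤ s A B M M := by
    intro B hB
    rw [mem_filter] at hB
    refine le_trans ?_ (h2 B hB.1 hB.2)
    split_ifs <;> norm_num
  have h4 := (sum_eq_zero_iff_of_nonneg h3).1 h1.symm B (mem_filter.2 ⟨hB, hMB⟩)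
  have h5 := h2 B hB hMB
  rw [h4] at h5
  by_contra hcon
  have h6 : M ∉ W A B M := fun h6 => hcon (mem_W.1 h6).2
  rw [if_neg h6] at h5
  norm_num at h5

end H59SG
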