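import Pool.Agent.H59.SG.Fs

/-!
MP_75f39d_co: families generated by sets with at most three shared elements, part four: negative local sums.
-/

set_option autoImplicit false

namespace H59SG

open Finset

variable {α : Type*} [DecidableEq α] {A G : Finset (Finset α)}

lemma tri_rot {x y z : α} : ({x, y, z} : Finset α) = {y, x, z} := insert_comm x y {z}

lemma tri_rot' {x y z : α} : ({x, y, z} : Finset α) = {z, x, y} := by
  ext t
  simp only [mem_insert, mem_singleton]
  constructor
  · rintro (h | h | h)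
    · exact Or.inr (Or.inl h)
    · exact Or.inr (Or.inr h)
    · exact Or.inl h
  · rintro (h | h | h)
    · exact Or.inr (Or.inr h)
    · exact Or.inl h
    · exact Or.inr (Or.inl h)

lemma Gen.neg3 (h : Gen A G) {B e : Finset α} (heB : e ⊆ B) (hB : B ∈ A)
    (hk : (sh G e).card = 3) :
    -1 ≤ s A B e (sh G e) ∧ (s A B e (sh G e) < 0 → ∃ x, Pay A G B e x) ∧
      (B \ e ∉ A → 0 < s A B e (sh G e)) := by
  have hlow := h.lower heB hB
  obtain ⟨x, y, z, hxy, hxz, hyz, hc⟩ := card_eq_three.1 hk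
  rw [sum_three hc hxy hxz hyz, hk] at hlow
  push_cast at hlow
  have hnum := num (P01 B (e \ sh G e) {x}) (P01 B (e \ sh G e) {y}) (P01 B (e \ sh G e) {z})
    (P01 B (e \ sh G e) {x, y}) (P01 B (e \ sh G e) {x, z}) (P01 B (e \ sh G e) {y, z})
    (P01 B (e \ sh G e) {x, y, z})
    (fun h1 h2 => h.P_inter (pair_inter hyz) h1 h2)
    (fun h1 h2 => h.P_inter (by rw [pair_comm x y]; exact pair_inter hxz) h1 h2)
    (fun h1 h2 => h.P_inter (by rw [pair_comm x z, pair_comm y z]; exact pair_inter hxy) h1 h2)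
    hlow
  have hfull : P A B (e \ sh G e) {x, y, z} = 1 ↔ B \ e ∈ A := by
    rw [P1, ← hc, union_sdiff_of_subset (sh_sub G e)]
  refine ⟨hnum.1, ?_, ?_⟩
  · intro hneg
    obtain ⟨hg, hdis⟩ := hnum.2.2 hneg
    have hR := hfull.1 hg
    rcases hdis with ⟨d1, d2, d3, d4⟩ | ⟨d1, d2, d3, d4⟩ | ⟨d1, d2, d3, d4⟩
    · exact ⟨x, pay_of h heB hc hxy hxz hyz hR (P1.1 d1) (P0 d2)
        (fun h5 => P1.1 (d3 (P1.2 h5))) (fun h5 => P1.1 (d4 (P1.2 h5)))⟩
    · refine ⟨y, pay_of h heB (hc.trans tri_rot) hxy.symm hyz hxz hR (P1.1 d1) (P0 d2)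
        (fun h5 => ?_) (fun h5 => P1.1 (d4 (P1.2 h5)))⟩
      rw [pair_comm]
      exact P1.1 (d3 (P1.2 h5))
    · refine ⟨z, pay_of h heB (hc.trans tri_rot') hxz.symm hyz.symm hxy hR (P1.1 d1) (P0 d2)
        (fun h5 => ?_) (fun h5 => ?_)⟩
      · rw [pair_comm]
        exact P1.1 (d3 (P1.2 h5))
      · rw [pair_comm]
        exact P1.1 (d4 (P1.2 h5))
  · intro hR
    have hg : P A B (e \ sh G e) {x, y, z} ≠ 1 := fun h5 => hR (hfull.1 h5)
    exact hnum.2.1 ((P01 B (e \ sh G e) {x, y, z}).resolve_right hg)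

/-- The local sum is at least `-1`; if it is negative there is a payer; if `B - e` is not in `A`
and `e` has three shared elements then it is positive. -/
theorem Gen.neg (h : Gen A G) {B e : Finset α} (he : e ∈ G) (heB : e ⊆ B) (hB : B ∈ A) :
    -1 ≤ s A B e (sh G e) ∧ (s A B e (sh G e) < 0 → ∃ x, Pay A G B e x) ∧
      ((sh G e).card = 3 → B \ e ∉ A → 0 < s A B e (sh G e)) := by
  have h3 := h.three e he
  have hcases : (sh G e).card = 0 ∨ (sh G e).card = 1 ∨ (sh G e).card = 2 ∨ (sh G e).card = 3 := by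
    omega
  rcases hcases with hk | hk | hk | hk
  · have hlow := h.lower heB hB
    rw [card_eq_zero] at hk
    rw [hk, card_empty, powerset_empty, sum_singleton, Fn_empty] at hlow
    rw [hk]
    refine ⟨by push_cast at hlow; linarith, fun h1 => ?_, fun h1 => ?_⟩
    · push_cast at hlow
      linarith
    · rw [card_empty] at h1
      omega
  · have hlow := h.lower heB hB
    have h4 := sum_one (A := A) (G := G) (B := B) hk
    rw [hk] at hlow
    push_cast at hlow
    exact ⟨by linarith, fun h => by linarith, fun h => by omega⟩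
  · have hlow := h.lower heB hB
    have h4 := sum_two (A := A) (G := G) (B := B) hk
    rw [hk] at hlow
    push_cast at hlow
    exact ⟨by linarith, fun h => by linarith, fun h => by omega⟩
  · have h4 := h.neg3 heB hB hk
    exact ⟨h4.1, h4.2.1, fun _ => h4.2.2⟩

end H59SG
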