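import Pool.Agent.H59.SG.Main

/-!
MP_75f39d_co: families generated by sets with at most three shared elements, part seven: the strict form.
-/

set_option autoImplicit false

namespace H59SG

open Finset

variable {α : Type*} [DecidableEq α] {A G : Finset (Finset α)}

/-- A member of `G` with a private and a shared element. -/
lemma Gen.mixed (h : Gen A G)
    (h0 : ∀ B ∈ A, ∑ e ∈ G.filter (fun e => e ⊆ B), s A B e (sh G e) = 0) {e f : Finset α}
    (he : e ∈ G) (hf : f ∈ G) (hfe : f ≠ e) {q x : α} (hq : q ∈ e) (hq' : q ∉ sh G e) (hxe : x ∈ e)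
    (hxf : x ∈ f) : (sh G e).card = 3 ∧ (sh G f).card = 1 := by
  obtain ⟨B, hB⟩ : ∃ B, B = e ∪ f := ⟨_, rfl⟩
  have hBA : B ∈ A := by
    rw [hB]
    exact h.un _ (h.sub he) _ (h.sub hf)
  have heB : e ⊆ B := by
    rw [hB]
    exact subset_union_left
  have hfB : f ⊆ B := by
    rw [hB]
    exact subset_union_right
  have hno : ∀ g ∈ G, g ≠ e → g ⊆ B → ∀ y ∈ g ∩ e, ∀ T ⊆ g, y ∈ T → B \ T ∉ A := by
    intro g hg hge _ y hy T hT hyT hBT
    rw [mem_inter] at hy
    have hqg : q ∉ g := fun h1 => hq' (mem_filter.2 ⟨hq, g, hg, hge, h1⟩)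
    have h1 := h.priv hq hq' hBT (mem_sdiff.2 ⟨heB hq, fun h2 => hqg (hT h2)⟩)
    exact (mem_sdiff.1 (h1 hy.2)).2 hyT
  have hsub : ∀ g ∈ G, g ≠ e → g ∩ e ⊆ sh G g := by
    intro g _ hge y hy
    rw [mem_inter] at hy
    exact mem_filter.2 ⟨hy.1, e, he, hge.symm, hy.2⟩
  have hpos : ∀ g ∈ (G.filter (fun g => g ⊆ B)).erase e, 0 ≤ s A B g (sh G g) := by
    intro g hg
    rw [mem_erase, mem_filter] at hg
    obtain ⟨hge, hgG, hgB⟩ := hg
    rcases (g ∩ e).eq_empty_or_nonempty with h1 | h1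
    · by_contra h2
      obtain ⟨y, hy⟩ := (h.neg hgG hgB hBA).2.1 (by linarith)
      have h3 : g ⊆ f := by
        intro t ht
        have h4 := hgB ht
        rw [hB, mem_union] at h4
        rcases h4 with h4 | h4
        · have h5 : t ∈ g ∩ e := mem_inter.2 ⟨ht, h4⟩
          rw [h1] at h5
          exact absurd h5 (notMem_empty t)
        · exact h4
      have hxg : x ∉ g := by
        intro h4
        have h5 : x ∈ g ∩ e := mem_inter.2 ⟨h4, hxe⟩
        rw [h1] at h5
        exact absurd h5 (notMem_empty x)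
      have hfg : g ≠ f := by
        rintro rfl
        exact hxg hxf
      have h4 : insert x g ⊆ sh G f := by
        intro t ht
        rcases mem_insert.1 ht with h5 | h5
        · rw [h5]
          exact mem_filter.2 ⟨hxf, e, he, hfe.symm, hxe⟩
        · exact mem_filter.2 ⟨h3 h5, g, hgG, hfg, h5⟩
      have h5 := card_le_card h4
      rw [card_insert_of_notMem hxg] at h5
      have h6 := card_le_card (sh_sub G g)
      have h7 := h.three f hf
      have h8 := hy.card
      omega
    · refine le_trans ?_ (h.cap' hgG hgB hBA (hsub g hgG hge) h1 (hno g hgG hge hgB))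
      exact_mod_cast Nat.zero_le _
  have heE : e ∈ G.filter (fun g => g ⊆ B) := mem_filter.2 ⟨he, heB⟩
  have hfE : f ∈ (G.filter (fun g => g ⊆ B)).erase e := mem_erase.2 ⟨hfe, mem_filter.2 ⟨hf, hfB⟩⟩
  have h1 := h0 B hBA
  rw [← add_sum_erase _ _ heE] at h1
  have h2 := single_le_sum hpos hfE
  have hC : (f ∩ e).Nonempty := ⟨x, mem_inter.2 ⟨hxf, hxe⟩⟩
  have h3 := h.cap hf hfB hBA (hsub f hf hfe) hC (hno f hf hfe hfB)
  have h4 := (h.neg he heB hBA).1
  have h5 := card_le_card (hsub f hf hfe)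
  have h6 := hC.card_pos
  have h7 := h.three f hf
  have h8 : (sh G f).card = 1 := by
    have h9 : (sh G f).card = 1 ∨ (sh G f).card = 2 ∨ (sh G f).card = 3 := by omega
    rcases h9 with h9 | h9 | h9
    · exact h9
    · rw [if_neg (by omega), h9] at h3
      push_cast at h3
      linarith
    · rw [h9] at h3
      split_ifs at h3
      · push_cast at h3
        linarith
      · push_cast at h3
        linarith
  refine ⟨?_, h8⟩
  rw [if_neg (by omega), h8] at h3
  push_cast at h3
  obtain ⟨y, hy⟩ := (h.neg he heB hBA).2.1 (by linarith)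
  exact hy.card

lemma Gen.no_mixed (h : Gen A G)
    (h0 : ∀ B ∈ A, ∑ e ∈ G.filter (fun e => e ⊆ B), s A B e (sh G e) = 0)
    (hfree : ∀ x, {x} ∈ A → ∀ D ∈ A, D.erase x ∈ A) {e : Finset α}
    (he : e ∈ G) {q x : α} (hq : q ∈ e) (hq' : q ∉ sh G e) (hx : x ∈ sh G e) : False := by
  obtain ⟨hxe, f, hf, hfe, hxf⟩ := mem_filter.1 hx
  obtain ⟨h1, h2⟩ := h.mixed h0 he hf hfe hq hq' hxe hxf
  by_cases h3 : ∃ q' ∈ f, q' ∉ sh G f
  · obtain ⟨q', hq1, hq2⟩ := h3
    have h4 := (h.mixed h0 hf he hfe.symm hq1 hq2 hxf hxe).1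
    omega
  · push Not at h3
    have h4 : f = sh G f := Subset.antisymm h3 (sh_sub G f)
    rw [← h4] at h2
    obtain ⟨y, hy⟩ := card_eq_one.1 h2
    have h5 : y = x := by
      rw [hy, mem_singleton] at hxf
      exact hxf.symm
    rw [h5] at hy
    have h6 : {x} ∈ A := by
      rw [← hy]
      exact h.sub hf
    have h7 := hfree x h6 e (h.sub he)
    have hqx : q ≠ x := fun h8 => hq' (h8 ▸ hx)
    have h8 := h.priv hq hq' h7 (mem_erase.2 ⟨hqx, hq⟩)
    exact notMem_erase x e (h8 hxe)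

/-- The shared elements of the members of `G`, and all other elements. -/
lemma Gen.all_shared (h : Gen A G)
    (hsep : ∀ x ∈ A.sup id, ∀ y ∈ A.sup id, x ≠ y →
      ∃ S ∈ A, (x ∈ S ∧ y ∉ S) ∨ (y ∈ S ∧ x ∉ S))
    (h0 : ∀ B ∈ A, ∑ e ∈ G.filter (fun e => e ⊆ B), s A B e (sh G e) = 0)
    (hfree : ∀ x, {x} ∈ A → ∀ D ∈ A, D.erase x ∈ A) {e : Finset α} (he : e ∈ G) {x : α}
    (hx : x ∈ e) (hxA : {x} ∉ A) : sh G e = e := by
  by_cases hxs : x ∈ sh G e
  · refine Subset.antisymm (sh_sub G e) fun q hq => ?_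
    by_contra hq'
    exact h.no_mixed h0 hfree he hq hq' hxs
  · exfalso
    have hall : ∀ y ∈ e, y ∉ sh G e := fun y _ hy' => h.no_mixed h0 hfree he hx hxs hy'
    have hsup : ∀ y ∈ e, y ∈ A.sup id := fun y hy =>
      (le_sup (f := id) (h.sub he) : e ≤ A.sup id) hy
    have h1 : e = {x} := by
      ext y
      rw [mem_singleton]
      constructor
      · intro hy
        by_contra hyx
        obtain ⟨S, hS, h2 | h2⟩ := hsep x (hsup x hx) y (hsup y hy) (Ne.symm hyx)
        · exact h2.2 (h.priv hx hxs hS h2.1 hy)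
        · exact h2.2 (h.priv hy (hall y hy) hS h2.1 hx)
      · intro hy
        rw [hy]
        exact hx
    apply hxA
    rw [← h1]
    exact h.sub he

lemma nonfree_mem (hfree : ∀ x, {x} ∈ A → ∀ D ∈ A, D.erase x ∈ A) {D : Finset α} (hD : D ∈ A) :
    D.filter (fun t => {t} ∉ A) ∈ A := by
  have h1 : ∀ S : Finset α, (∀ t ∈ S, {t} ∈ A) → D \ S ∈ A := by
    intro S
    induction S using Finset.induction_on with
    | empty =>
      intro _
      rwa [sdiff_empty]
    | insert a S _ ih =>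
      intro h2
      have h3 := ih fun t ht => h2 t (mem_insert_of_mem ht)
      have h4 := hfree a (h2 a (mem_insert_self a S)) _ h3
      have h5 : (D \ S).erase a = D \ insert a S := by
        ext t
        simp only [mem_erase, mem_sdiff, mem_insert]
        tauto
      rwa [h5] at h4
  have h2 := h1 (D.filter (fun t => {t} ∈ A)) fun t ht => (mem_filter.1 ht).2
  have h3 : D \ D.filter (fun t => {t} ∈ A) = D.filter (fun t => {t} ∉ A) := by
    ext t
    simp only [mem_sdiff, mem_filter]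
    tauto
  rwa [h3] at h2

end H59SG
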