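import Pool.Agent.H59.SG.Neg

/-!
MP_75f39d_co: families generated by sets with at most three shared elements, part five: a payer pays for one member of `G`, and the local inequality.
-/

set_option autoImplicit false

namespace H59SG

open Finset

variable {α : Type*} [DecidableEq α] {A G : Finset (Finset α)}

lemma Gen.all_sh (h : Gen A G) {B f f' : Finset α} (hf' : f' ∈ G) (hne : f' ≠ f) (hfB : f ⊆ B)
    {x : α} (hx : x ∈ f) (hx' : x ∈ f') (hD : B \ (f ∩ f') ∈ A) : f ⊆ sh G f := by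
  intro q hq
  by_contra hqs
  have h1 : q ∉ f' := fun hq' => hqs (mem_filter.2 ⟨hq, f', hf', hne, hq'⟩)
  have h2 := h.priv hq hqs hD (mem_sdiff.2 ⟨hfB hq, fun h => h1 (mem_inter.1 h).2⟩)
  exact (mem_sdiff.1 (h2 hx)).2 (mem_inter.2 ⟨hx, hx'⟩)

lemma Gen.era_v (h : Gen A G) {B f f' : Finset α} (hf' : f' ∈ G)
    (hfB : f ⊆ B) (hfB' : f' ⊆ B) {x u v : α} (hf3 : ∀ t ∈ f, t = x ∨ t = u ∨ t = v)
    (hx : x ∈ f) (hx' : x ∈ f') (hu' : u ∈ f') (hv : v ∈ f) (hv' : v ∉ f')
    (hi : insert x (B \ f) ∈ A) : B.erase v ∈ A := by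
  have h1 := h.un _ hi _ (h.sub hf')
  have h2 : insert x (B \ f) ∪ f' = B.erase v := by
    ext t
    simp only [mem_union, mem_insert, mem_sdiff, mem_erase]
    constructor
    · rintro ((h3 | h3) | h3)
      · rw [h3]
        exact ⟨fun h4 => hv' (h4 ▸ hx'), hfB hx⟩
      · exact ⟨fun h4 => h3.2 (h4 ▸ hv), h3.1⟩
      · exact ⟨fun h4 => hv' (h4 ▸ h3), hfB' h3⟩
    · rintro ⟨h3, h4⟩
      by_cases h5 : t ∈ f
      · rcases hf3 t h5 with h6 | h6 | h6
        · exact Or.inl (Or.inl h6)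
        · exact Or.inr (h6 ▸ hu')
        · exact absurd h6 h3
      · exact Or.inl (Or.inr ⟨h4, h5⟩)
  rwa [h2] at h1

theorem Gen.uniq (h : Gen A G) {B e e' : Finset α} (he : e ∈ G) (he' : e' ∈ G) (heB : e ⊆ B)
    (heB' : e' ⊆ B) {x : α} (hp : Pay A G B e x) (hp' : Pay A G B e' x) : e = e' := by
  by_contra hne
  have hD : B \ (e ∩ e') ∈ A := h.inter_mem hp.R hp'.R
  have hxe : x ∈ e := sh_sub G e hp.mem
  have hxe' : x ∈ e' := sh_sub G e' hp'.mem
  have hs : e = sh G e := Subset.antisymm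
    (h.all_sh he' (Ne.symm hne) heB hxe hxe' hD) (sh_sub G e)
  have hs' : e' = sh G e' := Subset.antisymm
    (h.all_sh he hne heB' hxe' hxe (by rwa [inter_comm] at hD)) (sh_sub G e')
  have hc : e.card = 3 := by
    rw [hs]
    exact hp.card
  have hc' : e'.card = 3 := by
    rw [hs']
    exact hp'.card
  obtain ⟨u, hu, hux⟩ : ∃ u ∈ e ∩ e', u ≠ x := by
    by_contra hcon
    push Not at hcon
    have h1 : e ∩ e' = {x} := by
      ext t
      rw [mem_singleton]
      exact ⟨fun h2 => hcon t h2, fun h2 => h2 ▸ mem_inter.2 ⟨hxe, hxe'⟩⟩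
    rw [h1, sdiff_singleton_eq_erase] at hD
    exact hp.era hD
  rw [mem_inter] at hu
  obtain ⟨v, hv, hv'⟩ : ∃ v ∈ e, v ∉ e' := by
    by_contra hcon
    push Not at hcon
    exact hne (eq_of_subset_of_card_le hcon (by omega))
  obtain ⟨w, hw, hw'⟩ : ∃ w ∈ e', w ∉ e := by
    by_contra hcon
    push Not at hcon
    exact hne (eq_of_subset_of_card_le hcon (by omega)).symm
  have hvx : v ≠ x := fun h1 => hv' (h1 ▸ hxe')
  have hvu : v ≠ u := fun h1 => hv' (h1 ▸ hu.2)
  have hwx : w ≠ x := fun h1 => hw' (h1 ▸ hxe)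
  have hwu : w ≠ u := fun h1 => hw' (h1 ▸ hu.1)
  have h3 : ∀ t ∈ e, t = x ∨ t = u ∨ t = v := by
    have h1 : ({x, u, v} : Finset α) = e := by
      apply eq_of_subset_of_card_le
      · intro t ht
        rw [mem_insert, mem_insert, mem_singleton] at ht
        rcases ht with rfl | rfl | rfl
        · exact hxe
        · exact hu.1
        · exact hv
      · rw [hc, card_eq_three.2 ⟨x, u, v, hux.symm, hvx.symm, hvu.symm, rfl⟩]
    intro t ht
    rw [← h1, mem_insert, mem_insert, mem_singleton] at ht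
    exact ht
  have h3' : ∀ t ∈ e', t = x ∨ t = u ∨ t = w := by
    have h1 : ({x, u, w} : Finset α) = e' := by
      apply eq_of_subset_of_card_le
      · intro t ht
        rw [mem_insert, mem_insert, mem_singleton] at ht
        rcases ht with rfl | rfl | rfl
        · exact hxe'
        · exact hu.2
        · exact hw
      · rw [hc', card_eq_three.2 ⟨x, u, w, hux.symm, hwx.symm, hwu.symm, rfl⟩]
    intro t ht
    rw [← h1, mem_insert, mem_insert, mem_singleton] at ht
    exact ht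
  have h4 := h.era_v he' heB heB' h3 hxe hxe' hu.2 hv hv' hp.ins
  have h4' := h.era_v he heB' heB h3' hxe' hxe hu.1 hw hw' hp'.ins
  have h5 := hp.third v (hs ▸ hv) hvx h4 u (hs ▸ hu.1) hux hvu.symm
  have h5' := hp'.third w (hs' ▸ hw) hwx h4' u (hs' ▸ hu.2) hux hwu.symm
  have h6 := h.un _ h5 _ h5'
  have h7 : insert u (B \ e) ∪ insert u (B \ e') = B.erase x := by
    ext t
    simp only [mem_union, mem_insert, mem_sdiff, mem_erase]
    constructor
    · rintro ((h8 | h8) | (h8 | h8))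
      · exact ⟨fun h9 => hux (h8.symm.trans h9), h8 ▸ heB hu.1⟩
      · exact ⟨fun h9 => h8.2 (h9 ▸ hxe), h8.1⟩
      · exact ⟨fun h9 => hux (h8.symm.trans h9), h8 ▸ heB hu.1⟩
      · exact ⟨fun h9 => h8.2 (h9 ▸ hxe'), h8.1⟩
    · rintro ⟨h8, h9⟩
      by_cases h10 : t ∈ e
      · rcases h3 t h10 with h11 | h11 | h11
        · exact absurd h11 h8
        · exact Or.inl (Or.inl h11)
        · exact Or.inr (Or.inr ⟨h9, fun h12 => hv' (h11 ▸ h12)⟩)
      · exact Or.inl (Or.inr ⟨h9, h10⟩)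
  rw [h7] at h6
  exact hp.era h6

/-- The member of `G` which a payer charges. -/
lemma Gen.charge (h : Gen A G) {B e : Finset α} (he : e ∈ G) (heB : e ⊆ B) {x : α}
    (hp : Pay A G B e x) : ∃ f ∈ G, f ⊆ B ∧ x ∈ sh G f ∧ ∀ T ⊆ f, x ∈ T → B \ T ∉ A := by
  have hxe : x ∈ e := sh_sub G e hp.mem
  obtain ⟨f, hf, hxf, hfR⟩ := h.gen _ hp.ins x (mem_insert_self _ _)
  have hfB : f ⊆ B := by
    intro t ht
    rcases mem_insert.1 (hfR ht) with h1 | h1
    · rw [h1]
      exact heB hxe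
    · exact (mem_sdiff.1 h1).1
  have hfe : f ≠ e := by
    rintro rfl
    have h1 : sh G f ⊆ {x} := by
      intro t ht
      rcases mem_insert.1 (hfR (sh_sub G f ht)) with h2 | h2
      · rw [h2]
        exact mem_singleton_self x
      · exact absurd (sh_sub G f ht) (mem_sdiff.1 h2).2
    have h2 := card_le_card h1
    rw [hp.card, card_singleton] at h2
    omega
  refine ⟨f, hf, hfB, mem_filter.2 ⟨hxf, e, he, hfe.symm, hxe⟩, ?_⟩
  intro T hT hxT hBT
  have h1 := h.inter_mem hBT hp.R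
  have h2 : T ∩ e = {x} := by
    ext t
    rw [mem_inter, mem_singleton]
    constructor
    · rintro ⟨h3, h4⟩
      rcases mem_insert.1 (hfR (hT h3)) with h5 | h5
      · exact h5
      · exact absurd h4 (mem_sdiff.1 h5).2
    · intro h3
      rw [h3]
      exact ⟨hxT, hxe⟩
  rw [h2, sdiff_singleton_eq_erase] at h1
  exact hp.era h1

/-- The local inequality. -/
theorem Gen.local (h : Gen A G) {B : Finset α} (hB : B ∈ A) :
    0 ≤ ∑ e ∈ G.filter (fun e => e ⊆ B), s A B e (sh G e) := by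
  classical
  obtain ⟨E, hE⟩ : ∃ E, E = G.filter (fun e => e ⊆ B) := ⟨_, rfl⟩
  have hEm : ∀ e ∈ E, e ∈ G ∧ e ⊆ B := by
    intro e he
    rw [hE, mem_filter] at he
    exact he
  rw [← hE]
  obtain ⟨N, hN⟩ : ∃ N, N = E.filter (fun e => s A B e (sh G e) < 0) := ⟨_, rfl⟩
  have hNm : ∀ e ∈ N, e ∈ E ∧ s A B e (sh G e) < 0 := by
    intro e he
    rw [hN, mem_filter] at he
    exact he
  have hpay : ∀ e ∈ N, ∃ x, Pay A G B e x := fun e he =>
    (h.neg (hEm e (hNm e he).1).1 (hEm e (hNm e he).1).2 hB).2.1 (hNm e he).2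
  choose X hX using fun (e : {e // e ∈ N}) => hpay e.1 e.2
  have hch : ∀ e : {e // e ∈ N}, ∃ f ∈ G, f ⊆ B ∧ X e ∈ sh G f ∧
      ∀ T ⊆ f, X e ∈ T → B \ T ∉ A := fun e =>
    h.charge (hEm _ (hNm _ e.2).1).1 (hEm _ (hNm _ e.2).1).2 (hX e)
  choose F hF1 hF2 hF3 hF4 using hch
  have hinj : ∀ e e' : {e // e ∈ N}, X e = X e' → e = e' := by
    intro e e' hee
    have h1 := hX e
    rw [hee] at h1
    exact Subtype.ext (h.uniq (hEm _ (hNm _ e.2).1).1 (hEm _ (hNm _ e'.2).1).1
      (hEm _ (hNm _ e.2).1).2 (hEm _ (hNm _ e'.2).1).2 h1 (hX e'))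
  have hcap : ∀ f ∈ G, f ⊆ B → ∀ S : Finset {e // e ∈ N}, S.Nonempty → (∀ e ∈ S, F e = f) →
      (S.card : ℤ) ≤ s A B f (sh G f) := by
    intro f hf hfB S hS hSf
    have h1 : (S.image X).card = S.card := card_image_of_injOn fun a _ b _ hab => hinj a b hab
    rw [← h1]
    refine h.cap' hf hfB hB ?_ (hS.image X) ?_
    · intro x hx
      obtain ⟨e, he, rfl⟩ := mem_image.1 hx
      have h2 := hF3 e
      rwa [hSf e he] at h2
    · intro x hx T hT hxT
      obtain ⟨e, he, rfl⟩ := mem_image.1 hx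
      exact hF4 e T (by rwa [hSf e he]) hxT
  rw [← sum_filter_add_sum_filter_not E (fun e => s A B e (sh G e) < 0), ← hN]
  have h1 : -(N.card : ℤ) ≤ ∑ e ∈ N, s A B e (sh G e) := by
    have h2 : ∑ e ∈ N, (-1 : ℤ) ≤ ∑ e ∈ N, s A B e (sh G e) :=
      sum_le_sum fun e he => (h.neg (hEm e (hNm e he).1).1 (hEm e (hNm e he).1).2 hB).1
    rw [sum_const, nsmul_eq_mul] at h2
    linarith
  have h3 : (N.card : ℤ) ≤ ∑ f ∈ E.filter (fun e => ¬ s A B e (sh G e) < 0), s A B f (sh G f) := by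
    have h4 : (N.card : ℤ) = ∑ f ∈ E.filter (fun e => ¬ s A B e (sh G e) < 0),
        ((N.attach.filter (fun e => F e = f)).card : ℤ) := by
      rw [← card_attach (s := N)]
      have h5 : ∀ e ∈ N.attach, F e ∈ E.filter (fun e => ¬ s A B e (sh G e) < 0) := by
        intro e _
        rw [mem_filter]
        refine ⟨by rw [hE, mem_filter]; exact ⟨hF1 e, hF2 e⟩, ?_⟩
        have h6 := hcap (F e) (hF1 e) (hF2 e) {e} (singleton_nonempty e) (by
          intro a ha
          rw [mem_singleton.1 ha])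
        rw [card_singleton] at h6
        push_cast at h6
        linarith
      exact_mod_cast card_eq_sum_card_fiberwise h5
    rw [h4]
    refine sum_le_sum fun f hf => ?_
    rw [mem_filter] at hf
    rcases (N.attach.filter (fun e => F e = f)).eq_empty_or_nonempty with h5 | h5
    · rw [h5, card_empty]
      push_cast
      linarith [hf.2]
    · exact hcap f (hEm f hf.1).1 (hEm f hf.1).2 _ h5 fun e he => (mem_filter.1 he).2
  linarith

end H59SG
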